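import Pool.Agent.H95Z.Vil.Main

/-!
# A simple C*-algebra of stable rank one with a unique trace and positive radius of comparison

The definitions are in `Pool.Agent.H95Z.Vil.Defs`. The algebra is an inductive limit of
homogeneous algebras over products of real projective spaces. Each connecting map has many
coordinate projections, point evaluations carried by trivial bundles (these give simplicity and
stable rank one), and many more point evaluations carried by a line bundle on a new projective
space (these make the trace unique). A Borsuk-Ulam theorem on products of spheres shows that a
projection of trace 1/3 is not subequivalent to its complement.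
-/

namespace Pool.Agent.Results.MP_c20ff4_an.AUniqueTrace

open Pool.Agent.H95Z.Vil

/-- There is a unital C*-algebra which is simple, stably finite, of stable rank one, with positive
radius of comparison, and with exactly one tracial state (so that its trace space is a Bauer
simplex); this trace is a normalized 2-quasitrace and extends to all matrix algebras. -/
theorem result : ∃ (A : Type) (_ : CStarAlgebra A) (_ : PartialOrder A) (_ : StarOrderedRing A),
    IsSimpleRing A ∧ StablyFinite A ∧ StableRankOne A ∧ 0 < rc A ∧
    IsClosed ((tracialStates A).extremePoints ℝ) ∧
    ∃ τ, tracialStates A = {τ} ∧ IsNormQT2 τ ∧ ∀ n, ∃ σ, Extends τ n σ :=
  main'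

end Pool.Agent.Results.MP_c20ff4_an.AUniqueTrace
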